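import Pool.Agent.N912.PY.Stm

/-!
Project PY (helper912), PY9: Katai's inequality in `ℤ[√(-c)]`.
-/

set_option autoImplicit false

namespace Pool.Agent.N263.PY.Kat

open Finset Pool.Agent.N912.PY
open scoped ComplexConjugate

section

variable {c : ℕ}

theorem nn_cast (z : ℤ × ℤ) : ((nn (c : ℤ) z : ℕ) : ℤ) = z.1 ^ 2 + (c : ℤ) * z.2 ^ 2 := by
  unfold nn
  rw [Int.natAbs_of_nonneg (by positivity)]

theorem nn_pm (π w : ℤ × ℤ) : nn (c : ℤ) (pm (c : ℤ) π w) = nn (c : ℤ) π * nn (c : ℤ) w := by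
  unfold nn pm
  rw [← Int.natAbs_mul]
  congr 1
  ring

theorem eq_zero_of_nn (hc : 1 ≤ c) {z : ℤ × ℤ} (hz : nn (c : ℤ) z = 0) : z = 0 := by
  have h := nn_cast (c := c) z
  rw [hz] at h
  have hc' : (1 : ℤ) ≤ c := by exact_mod_cast hc
  have h3 : z.2 ^ 2 ≤ (c : ℤ) * z.2 ^ 2 := le_mul_of_one_le_left (sq_nonneg _) hc'
  rw [Nat.cast_zero] at h
  have h1 : z.1 ^ 2 = 0 := by linarith [sq_nonneg z.1, sq_nonneg z.2]
  have h2 : z.2 ^ 2 = 0 := by linarith [sq_nonneg z.1, sq_nonneg z.2]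
  ext
  · simpa using h1
  · simpa using h2

theorem nn_zero : nn (c : ℤ) 0 = 0 := by
  simp [nn]

theorem pm_inj (hc : 1 ≤ c) {π : ℤ × ℤ} (hπ : nn (c : ℤ) π ≠ 0) :
    Function.Injective (pm (c : ℤ) π) := by
  intro w w' h
  have h1 : pm (c : ℤ) π (w - w') = 0 := by
    unfold pm at h ⊢
    rw [Prod.mk.injEq] at h
    ext
    · simp only [Prod.fst_sub, Prod.snd_sub, Prod.fst_zero]
      linear_combination h.1
    · simp only [Prod.fst_sub, Prod.snd_sub, Prod.snd_zero]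
      linear_combination h.2
  have h2 : nn (c : ℤ) (pm (c : ℤ) π (w - w')) = 0 := by rw [h1, nn_zero]
  rw [nn_pm, mul_eq_zero] at h2
  rcases h2 with h2 | h2
  · exact absurd h2 hπ
  · exact sub_eq_zero.mp (eq_zero_of_nn hc h2)

theorem mem_bx {Λ x : ℕ} {z : ℤ × ℤ} :
    z ∈ bx Λ x ↔ |z.1| ≤ ((Λ * x : ℕ) : ℤ) ∧ |z.2| ≤ ((Λ * x : ℕ) : ℤ) := by
  unfold bx
  rw [mem_product, mem_Icc, mem_Icc, abs_le, abs_le]

theorem nn_le {Λ x : ℕ} {z : ℤ × ℤ} (h : z ∈ bx Λ x) :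
    nn (c : ℤ) z ≤ (1 + c) * (Λ * x) ^ 2 := by
  rw [mem_bx] at h
  have h1 : z.1 ^ 2 ≤ ((Λ * x : ℕ) : ℤ) ^ 2 := by
    rw [← sq_abs z.1]
    exact pow_le_pow_left₀ (abs_nonneg _) h.1 2
  have h2 : z.2 ^ 2 ≤ ((Λ * x : ℕ) : ℤ) ^ 2 := by
    rw [← sq_abs z.2]
    exact pow_le_pow_left₀ (abs_nonneg _) h.2 2
  have h3 : ((nn (c : ℤ) z : ℕ) : ℤ) ≤ (((1 + c) * (Λ * x) ^ 2 : ℕ) : ℤ) := by
    rw [nn_cast]
    push_cast at h1 h2 ⊢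
    have hc' : (0 : ℤ) ≤ c := by positivity
    nlinarith [mul_le_mul_of_nonneg_left h2 hc']
  exact_mod_cast h3

theorem sqrt_le (hc : 1 ≤ c) {T : ℕ} {z : ℤ × ℤ} (h : nn (c : ℤ) z ≤ T) :
    z.1.natAbs ≤ Nat.sqrt T ∧ z.2.natAbs ≤ Nat.sqrt T := by
  have hc' : (1 : ℤ) ≤ c := by exact_mod_cast hc
  have h' : ((nn (c : ℤ) z : ℕ) : ℤ) ≤ T := by exact_mod_cast h
  rw [nn_cast] at h'
  constructor
  · rw [Nat.le_sqrt']
    have : ((z.1.natAbs ^ 2 : ℕ) : ℤ) ≤ T := by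
      push_cast
      rw [sq_abs]
      have h3 : 0 ≤ (c : ℤ) * z.2 ^ 2 := by positivity
      linarith
    exact_mod_cast this
  · rw [Nat.le_sqrt']
    have : ((z.2.natAbs ^ 2 : ℕ) : ℤ) ≤ T := by
      push_cast
      rw [sq_abs]
      have h3 : z.2 ^ 2 ≤ (c : ℤ) * z.2 ^ 2 := le_mul_of_one_le_left (sq_nonneg _) hc'
      linarith [sq_nonneg z.1]
    exact_mod_cast this

theorem mem_big (hc : 1 ≤ c) {Λ x : ℕ} {π w : ℤ × ℤ} (hπ : nn (c : ℤ) π ≠ 0)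
    (h : pm (c : ℤ) π w ∈ bx Λ x) : w ∈ bx (Λ * (c + 1)) x := by
  have h1 := nn_le (c := c) h
  rw [nn_pm] at h1
  have h2 : nn (c : ℤ) w ≤ (Λ * (c + 1) * x) ^ 2 := by
    calc nn (c : ℤ) w ≤ nn (c : ℤ) π * nn (c : ℤ) w :=
          Nat.le_mul_of_pos_left _ (Nat.pos_of_ne_zero hπ)
      _ ≤ (1 + c) * (Λ * x) ^ 2 := h1
      _ ≤ (1 + c) ^ 2 * (Λ * x) ^ 2 :=
          Nat.mul_le_mul_right _ (Nat.le_self_pow (by norm_num) _)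
      _ = (Λ * (c + 1) * x) ^ 2 := by ring
  have h3 := sqrt_le hc h2
  rw [Nat.sqrt_eq'] at h3
  rw [mem_bx]
  constructor
  · rw [← Int.natCast_natAbs]
    exact_mod_cast h3.1
  · rw [← Int.natCast_natAbs]
    exact_mod_cast h3.2

theorem count (hc : 1 ≤ c) {Λ x : ℕ} (hΛ : 1 ≤ Λ) {π : ℤ × ℤ} (hπ : nn (c : ℤ) π ≠ 0)
    (hx : nn (c : ℤ) π ≤ x) (s : Finset (ℤ × ℤ)) (hs : ∀ w ∈ s, pm (c : ℤ) π w ∈ bx Λ x) :
    (s.card : ℝ) ≤ 9 * (1 + c) * (Λ * x : ℝ) ^ 2 * (1 / (nn (c : ℤ) π : ℝ)) := by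
  set N := nn (c : ℤ) π with hN
  set T := (1 + c) * (Λ * x) ^ 2 / N with hT
  set K := Nat.sqrt T with hK
  have hNpos : 0 < N := Nat.pos_of_ne_zero hπ
  have hx1 : 1 ≤ x := le_trans hNpos hx
  have hsub : s ⊆ Icc (-(K : ℤ)) K ×ˢ Icc (-(K : ℤ)) K := by
    intro w hw
    have h1 := nn_le (c := c) (hs w hw)
    rw [nn_pm] at h1
    have h2 : nn (c : ℤ) w ≤ T := by
      rw [hT, Nat.le_div_iff_mul_le hNpos, mul_comm]
      exact h1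
    have h3 := sqrt_le hc h2
    rw [mem_product, mem_Icc, mem_Icc]
    omega
  have hcard : s.card ≤ (2 * K + 1) ^ 2 := by
    refine (card_le_card hsub).trans ?_
    rw [card_product, Int.card_Icc]
    have : ((K : ℤ) + 1 - (-K)).toNat = 2 * K + 1 := by omega
    rw [this, sq]
  have hT1 : 1 ≤ T := by
    rw [hT, Nat.le_div_iff_mul_le hNpos, one_mul]
    calc N ≤ x := hx
      _ ≤ Λ * x := Nat.le_mul_of_pos_left _ hΛ
      _ ≤ (Λ * x) ^ 2 := Nat.le_self_pow (by norm_num) _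
      _ ≤ (1 + c) * (Λ * x) ^ 2 := Nat.le_mul_of_pos_left _ (by omega)
  have hK1 : 1 ≤ K := by
    rw [hK, Nat.le_sqrt']
    simpa using hT1
  have hKT : K ^ 2 ≤ T := Nat.sqrt_le' T
  have hTN : (T : ℝ) ≤ ((1 + c) * (Λ * x) ^ 2 : ℕ) / (N : ℝ) := by
    rw [hT]
    exact Nat.cast_div_le
  have h4 : (s.card : ℝ) ≤ 9 * (K : ℝ) ^ 2 := by
    have h5 : (s.card : ℝ) ≤ (2 * (K : ℝ) + 1) ^ 2 := by exact_mod_cast hcard
    have h6 : (1 : ℝ) ≤ K := by exact_mod_cast hK1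
    nlinarith
  have h5 : (K : ℝ) ^ 2 ≤ T := by exact_mod_cast hKT
  have h6 : (s.card : ℝ) ≤ 9 * (((1 + c) * (Λ * x) ^ 2 : ℕ) / (N : ℝ)) := by linarith
  refine h6.trans (le_of_eq ?_)
  push_cast
  ring

/-- the sum over the multiples of `π` -/
theorem sum_mult (hc : 1 ≤ c) {Λ x : ℕ} {π : ℤ × ℤ} (hπ : nn (c : ℤ) π ≠ 0) (F : ℤ × ℤ → ℂ)
    (hF : ∀ z, z ∉ bx Λ x → F z = 0) [DecidablePred fun z : ℤ × ℤ => ∃ w, z = pm (c : ℤ) π w] :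
    ∑ z ∈ bx Λ x, (if ∃ w, z = pm (c : ℤ) π w then F z else 0) =
      ∑ w ∈ bx (Λ * (c + 1)) x, F (pm (c : ℤ) π w) := by
  classical
  have h1 : ∑ w ∈ bx (Λ * (c + 1)) x, F (pm (c : ℤ) π w) =
      ∑ w ∈ (bx (Λ * (c + 1)) x).filter (fun w => pm (c : ℤ) π w ∈ bx Λ x),
        F (pm (c : ℤ) π w) := by
    rw [sum_filter]
    refine sum_congr rfl fun w _ => ?_
    split_ifs with h
    · rfl
    · exact hF _ h
  rw [h1, ← sum_filter, ← sum_image (f := F) (g := pm (c : ℤ) π)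
    (fun a _ b _ hab => pm_inj hc hπ hab)]
  congr 1
  ext z
  rw [mem_filter, mem_image]
  constructor
  · rintro ⟨hz, w, rfl⟩
    exact ⟨w, mem_filter.mpr ⟨mem_big hc hπ hz, hz⟩, rfl⟩
  · rintro ⟨w, hw, rfl⟩
    exact ⟨(mem_filter.mp hw).2, w, rfl⟩

end

/-- Cauchy-Schwarz for `∑_w f(w) ∑_π a(π) G(π, w)` -/
theorem cauchy {α β : Type} [DecidableEq β] (s : Finset α) (𝔓 : Finset β) (f : α → ℂ) (a : β → ℂ)
    (G : β → α → ℂ) (hf : ∀ w, ‖f w‖ ≤ 1) (ha : ∀ π, ‖a π‖ ≤ 1) :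
    ‖∑ w ∈ s, f w * ∑ π ∈ 𝔓, a π * G π w‖ ≤ Real.sqrt s.card *
      Real.sqrt (∑ π ∈ 𝔓, ‖∑ w ∈ s, G π w * conj (G π w)‖ +
        ∑ π ∈ 𝔓, ∑ π' ∈ 𝔓.erase π, ‖∑ w ∈ s, G π w * conj (G π' w)‖) := by
  set S : α → ℂ := fun w => ∑ π ∈ 𝔓, a π * G π w with hS
  have h1 : ‖∑ w ∈ s, f w * S w‖ ≤ ∑ w ∈ s, ‖S w‖ := by
    refine (norm_sum_le _ _).trans (sum_le_sum fun w _ => ?_)
    rw [norm_mul]
    exact mul_le_of_le_one_left (norm_nonneg _) (hf w)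
  have h2 : (∑ w ∈ s, ‖S w‖) ^ 2 ≤ s.card * ∑ w ∈ s, ‖S w‖ ^ 2 :=
    sq_sum_le_card_mul_sum_sq
  have h3 : ((∑ w ∈ s, ‖S w‖ ^ 2 : ℝ) : ℂ) =
      ∑ π ∈ 𝔓, ∑ π' ∈ 𝔓, a π * conj (a π') * ∑ w ∈ s, G π w * conj (G π' w) := by
    push_cast
    have h4 : ∀ w, ((‖S w‖ : ℂ)) ^ 2 =
        ∑ π ∈ 𝔓, ∑ π' ∈ 𝔓, a π * conj (a π') * (G π w * conj (G π' w)) := by
      intro w
      rw [← Complex.mul_conj', hS]
      simp only [map_sum, map_mul]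
      rw [sum_mul_sum]
      refine sum_congr rfl fun π _ => sum_congr rfl fun π' _ => ?_
      ring
    simp only [h4]
    rw [sum_comm]
    refine sum_congr rfl fun π _ => ?_
    rw [sum_comm]
    refine sum_congr rfl fun π' _ => ?_
    rw [mul_sum]
  have h5 : ∑ w ∈ s, ‖S w‖ ^ 2 ≤ ∑ π ∈ 𝔓, ‖∑ w ∈ s, G π w * conj (G π w)‖ +
        ∑ π ∈ 𝔓, ∑ π' ∈ 𝔓.erase π, ‖∑ w ∈ s, G π w * conj (G π' w)‖ := by
    have h6 : ∑ w ∈ s, ‖S w‖ ^ 2 = ‖((∑ w ∈ s, ‖S w‖ ^ 2 : ℝ) : ℂ)‖ := by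
      rw [Complex.norm_real, Real.norm_of_nonneg (sum_nonneg fun _ _ => sq_nonneg _)]
    rw [h6, h3, ← sum_add_distrib]
    refine (norm_sum_le _ _).trans (sum_le_sum fun π hπ => ?_)
    rw [← add_sum_erase 𝔓 _ hπ]
    have h7 : ∀ π π', ‖a π * conj (a π') * ∑ w ∈ s, G π w * conj (G π' w)‖ ≤
        ‖∑ w ∈ s, G π w * conj (G π' w)‖ := by
      intro π π'
      rw [norm_mul, norm_mul, RCLike.norm_conj]
      refine mul_le_of_le_one_left (norm_nonneg _) ?_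
      exact mul_le_one₀ (ha π) (norm_nonneg _) (ha π')
    refine (norm_add_le _ _).trans (add_le_add (h7 π π) ?_)
    exact (norm_sum_le _ _).trans (sum_le_sum fun π' _ => h7 π π')
  refine h1.trans ?_
  rw [← Real.sqrt_mul (Nat.cast_nonneg _)]
  refine Real.le_sqrt_of_sq_le (h2.trans ?_)
  exact mul_le_mul_of_nonneg_left h5 (Nat.cast_nonneg _)

theorem card_bx (Λ x : ℕ) (h : 1 ≤ Λ * x) : ((bx Λ x).card : ℝ) ≤ (3 * (Λ * x : ℝ)) ^ 2 := by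
  unfold bx
  rw [card_product, Int.card_Icc]
  have h1 : (((Λ * x : ℕ) : ℤ) + 1 - (-((Λ * x : ℕ) : ℤ))).toNat = 2 * (Λ * x) + 1 := by omega
  rw [h1]
  push_cast
  have h2 : (1 : ℝ) ≤ Λ * x := by exact_mod_cast h
  nlinarith

/-- the inequality for functions which vanish at `0` -/
theorem kat0 (c : ℕ) (hc : 1 ≤ c) (C₁ : ℝ) (hC₁ : 0 < C₁) (𝔓 : Finset (ℤ × ℤ))
    (hP : PSet (c : ℤ) (2 * c) 𝔓) (hM : 1 ≤ mass (c : ℤ) 𝔓) (Λ : ℕ) (hΛ : 1 ≤ Λ) (x : ℕ)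
    (hx1 : 1 ≤ x) (hx : ∀ π ∈ 𝔓, nn (c : ℤ) π ≤ x)
    (hTK : ∑ z ∈ bx Λ x, ((om (c : ℤ) 𝔓 z : ℝ) - mass (c : ℤ) 𝔓) ^ 2 ≤
      C₁ * (Λ * x : ℝ) ^ 2 * mass (c : ℤ) 𝔓) (f : ℕ → ℂ) (hf1 : ∀ n, ‖f n‖ ≤ 1)
    (hfm : ∀ m n : ℕ, f (m * n) = f m * f n) (g : ℤ × ℤ → ℂ) (hg1 : ∀ z, ‖g z‖ ≤ 1)
    (hg0 : ∀ z, z ∉ bx Λ x → g z = 0) :
    ‖∑ z ∈ bx Λ x, f (nn (c : ℤ) z) * g z‖ ≤
      (9 * (c + 1 : ℝ) ^ 2 + 3 * Real.sqrt C₁) * (Λ * x : ℝ) ^ 2 / Real.sqrt (mass (c : ℤ) 𝔓) +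
      (9 * (c + 1 : ℝ) ^ 2 + 3 * Real.sqrt C₁) * (Λ * x : ℝ) *
        Real.sqrt (∑ π ∈ 𝔓, ∑ π' ∈ 𝔓.erase π,
        ‖∑ w ∈ bx (Λ * (c + 1)) x, g (pm (c : ℤ) π w) * conj (g (pm (c : ℤ) π' w))‖) := by
  classical
  set M := mass (c : ℤ) 𝔓 with hMdef
  set off := ∑ π ∈ 𝔓, ∑ π' ∈ 𝔓.erase π,
        ‖∑ w ∈ bx (Λ * (c + 1)) x, g (pm (c : ℤ) π w) * conj (g (pm (c : ℤ) π' w))‖ with hoff
  have hoff0 : 0 ≤ off := sum_nonneg fun _ _ => sum_nonneg fun _ _ => norm_nonneg _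
  set F : ℤ × ℤ → ℂ := fun z => f (nn (c : ℤ) z) * g z with hF
  have hF1 : ∀ z, ‖F z‖ ≤ 1 := fun z => by
    rw [hF]
    simp only [norm_mul]
    exact mul_le_one₀ (hf1 _) (norm_nonneg _) (hg1 _)
  have hΛx : 1 ≤ Λ * x := Nat.mul_pos hΛ hx1
  set X : ℝ := (Λ * x : ℝ) with hX
  have hX1 : 1 ≤ X := by rw [hX]; exact_mod_cast hΛx
  have hM0 : 0 < M := lt_of_lt_of_le one_pos hM
  -- the main decomposition
  have hdec : (M : ℂ) * ∑ z ∈ bx Λ x, F z = ∑ z ∈ bx Λ x, (om (c : ℤ) 𝔓 z : ℂ) * F z -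
      ∑ z ∈ bx Λ x, (((om (c : ℤ) 𝔓 z : ℝ) - M : ℝ) : ℂ) * F z := by
    rw [← sum_sub_distrib, mul_sum]
    refine sum_congr rfl fun z _ => ?_
    push_cast
    ring
  -- the second sum
  have h2 : ‖∑ z ∈ bx Λ x, (((om (c : ℤ) 𝔓 z : ℝ) - M : ℝ) : ℂ) * F z‖ ≤
      3 * Real.sqrt C₁ * X ^ 2 * Real.sqrt M := by
    have h3 : ‖∑ z ∈ bx Λ x, (((om (c : ℤ) 𝔓 z : ℝ) - M : ℝ) : ℂ) * F z‖ ≤
        ∑ z ∈ bx Λ x, |(om (c : ℤ) 𝔓 z : ℝ) - M| := by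
      refine (norm_sum_le _ _).trans (sum_le_sum fun z _ => ?_)
      rw [norm_mul, Complex.norm_real, Real.norm_eq_abs]
      exact mul_le_of_le_one_right (abs_nonneg _) (hF1 z)
    have h4 : (∑ z ∈ bx Λ x, |(om (c : ℤ) 𝔓 z : ℝ) - M|) ^ 2 ≤
        (bx Λ x).card * ∑ z ∈ bx Λ x, |(om (c : ℤ) 𝔓 z : ℝ) - M| ^ 2 :=
      sq_sum_le_card_mul_sum_sq
    simp only [sq_abs] at h4
    have h5 : (∑ z ∈ bx Λ x, |(om (c : ℤ) 𝔓 z : ℝ) - M|) ^ 2 ≤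
        (3 * X) ^ 2 * (C₁ * X ^ 2 * M) :=
      h4.trans (mul_le_mul (card_bx Λ x hΛx) hTK (sum_nonneg fun _ _ => sq_nonneg _)
        (sq_nonneg _))
    refine h3.trans ?_
    have h6 : (3 * X) ^ 2 * (C₁ * X ^ 2 * M) = (3 * Real.sqrt C₁ * X ^ 2 * Real.sqrt M) ^ 2 := by
      have e1 := Real.sq_sqrt hC₁.le
      have e2 := Real.sq_sqrt hM0.le
      calc (3 * X) ^ 2 * (C₁ * X ^ 2 * M) = 9 * C₁ * X ^ 4 * M := by ring
        _ = 9 * (Real.sqrt C₁ ^ 2) * X ^ 4 * (Real.sqrt M ^ 2) := by rw [e1, e2]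
        _ = _ := by ring
    rw [h6] at h5
    exact (sq_le_sq₀ (sum_nonneg fun _ _ => abs_nonneg _) (by positivity)).mp h5
  -- the first sum
  have h7 : ∑ z ∈ bx Λ x, (om (c : ℤ) 𝔓 z : ℂ) * F z =
      ∑ w ∈ bx (Λ * (c + 1)) x, f (nn (c : ℤ) w) *
        ∑ π ∈ 𝔓, f (nn (c : ℤ) π) * g (pm (c : ℤ) π w) := by
    have e1 : ∀ z, (om (c : ℤ) 𝔓 z : ℂ) * F z =
        ∑ π ∈ 𝔓, (if ∃ w, z = pm (c : ℤ) π w then F z else 0) := by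
      intro z
      unfold om
      rw [← sum_filter, sum_const, nsmul_eq_mul]
    simp only [e1]
    rw [sum_comm]
    have e2 : ∀ π ∈ 𝔓, ∑ z ∈ bx Λ x, (if ∃ w, z = pm (c : ℤ) π w then F z else 0) =
        ∑ w ∈ bx (Λ * (c + 1)) x, F (pm (c : ℤ) π w) := by
      intro π hπ
      refine sum_mult hc (hP.prime π hπ).ne_zero F ?_
      intro z hz
      rw [hF]
      simp only [hg0 z hz, mul_zero]
    rw [sum_congr rfl e2, sum_comm]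
    refine sum_congr rfl fun w _ => ?_
    rw [mul_sum]
    refine sum_congr rfl fun π _ => ?_
    rw [hF]
    simp only
    rw [nn_pm, hfm]
    ring
  have h8 := cauchy (bx (Λ * (c + 1)) x) 𝔓 (fun w => f (nn (c : ℤ) w))
    (fun π => f (nn (c : ℤ) π)) (fun π w => g (pm (c : ℤ) π w)) (fun _ => hf1 _) (fun _ => hf1 _)
  rw [← h7, ← hoff] at h8
  have h9 : ∑ π ∈ 𝔓, ‖∑ w ∈ bx (Λ * (c + 1)) x, g (pm (c : ℤ) π w) *
      conj (g (pm (c : ℤ) π w))‖ ≤ 9 * (1 + c) * X ^ 2 * M := by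
    rw [hMdef, mass, mul_sum]
    refine sum_le_sum fun π hπ => ?_
    have e1 : ‖∑ w ∈ bx (Λ * (c + 1)) x, g (pm (c : ℤ) π w) * conj (g (pm (c : ℤ) π w))‖ ≤
        (((bx (Λ * (c + 1)) x).filter (fun w => pm (c : ℤ) π w ∈ bx Λ x)).card : ℝ) := by
      refine (norm_sum_le _ _).trans ?_
      rw [card_filter]
      push_cast
      refine sum_le_sum fun w _ => ?_
      split_ifs with h
      · rw [norm_mul, RCLike.norm_conj]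
        exact mul_le_one₀ (hg1 _) (norm_nonneg _) (hg1 _)
      · rw [hg0 _ h]
        simp
    refine e1.trans ?_
    exact count hc hΛ (hP.prime π hπ).ne_zero (hx π hπ) _ fun w hw => (mem_filter.mp hw).2
  have hcard' : Real.sqrt ((bx (Λ * (c + 1)) x).card : ℝ) ≤ 3 * ((c + 1) * X) := by
    have e1 := card_bx (Λ * (c + 1)) x (by
      calc 1 ≤ Λ * x := hΛx
        _ ≤ Λ * (c + 1) * x := by nlinarith [Nat.zero_le (Λ * c * x)])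
    rw [Real.sqrt_le_left (by positivity)]
    refine e1.trans (le_of_eq ?_)
    rw [hX]
    push_cast
    ring
  have hc0 : (0 : ℝ) ≤ c := Nat.cast_nonneg _
  have h10 : Real.sqrt (∑ π ∈ 𝔓, ‖∑ w ∈ bx (Λ * (c + 1)) x, g (pm (c : ℤ) π w) *
      conj (g (pm (c : ℤ) π w))‖ + off) ≤ 3 * (c + 1) * X * Real.sqrt M + Real.sqrt off := by
    rw [Real.sqrt_le_left (by positivity)]
    have e1 := Real.sq_sqrt hM0.le
    have e2 := Real.sq_sqrt hoff0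
    have e3 : (3 * (c + 1 : ℝ) * X * Real.sqrt M + Real.sqrt off) ^ 2 =
        9 * (c + 1) ^ 2 * X ^ 2 * M + off + 6 * (c + 1) * X * Real.sqrt M * Real.sqrt off := by
      calc (3 * (c + 1 : ℝ) * X * Real.sqrt M + Real.sqrt off) ^ 2 =
          9 * (c + 1) ^ 2 * X ^ 2 * Real.sqrt M ^ 2 + Real.sqrt off ^ 2 +
          6 * (c + 1) * X * Real.sqrt M * Real.sqrt off := by ring
        _ = _ := by rw [e1, e2]
    rw [e3]
    have e4 : (0 : ℝ) ≤ 6 * (c + 1) * X * Real.sqrt M * Real.sqrt off := by positivity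
    have e5 : 9 * (1 + c : ℝ) * X ^ 2 * M ≤ 9 * (c + 1) ^ 2 * X ^ 2 * M := by
      have : (1 + c : ℝ) ≤ (c + 1) ^ 2 := by nlinarith
      have e6 : 0 ≤ X ^ 2 * M := by positivity
      nlinarith
    linarith
  have h11 : ‖∑ z ∈ bx Λ x, (om (c : ℤ) 𝔓 z : ℂ) * F z‖ ≤
      3 * ((c + 1) * X) * (3 * (c + 1) * X * Real.sqrt M + Real.sqrt off) :=
    h8.trans (mul_le_mul hcard' h10 (Real.sqrt_nonneg _) (by positivity))
  -- conclusion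
  have h12 : M * ‖∑ z ∈ bx Λ x, F z‖ ≤
      3 * ((c + 1) * X) * (3 * (c + 1) * X * Real.sqrt M + Real.sqrt off) +
      3 * Real.sqrt C₁ * X ^ 2 * Real.sqrt M := by
    have e1 : M * ‖∑ z ∈ bx Λ x, F z‖ = ‖(M : ℂ) * ∑ z ∈ bx Λ x, F z‖ := by
      rw [norm_mul, Complex.norm_real, Real.norm_of_nonneg hM0.le]
    rw [e1, hdec]
    exact (norm_sub_le _ _).trans (add_le_add h11 h2)
  have hsM : 0 < Real.sqrt M := Real.sqrt_pos.mpr hM0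
  have hsM2 : Real.sqrt M * Real.sqrt M = M := Real.mul_self_sqrt hM0.le
  have hs1 : 0 ≤ Real.sqrt C₁ := Real.sqrt_nonneg _
  have hs2 : 0 ≤ Real.sqrt off := Real.sqrt_nonneg _
  have h13 : ‖∑ z ∈ bx Λ x, F z‖ ≤
      (3 * ((c + 1) * X) * (3 * (c + 1) * X * Real.sqrt M + Real.sqrt off) +
      3 * Real.sqrt C₁ * X ^ 2 * Real.sqrt M) / M := by
    rw [le_div_iff₀ hM0, mul_comm]
    exact h12
  refine h13.trans ?_
  have e1 : (3 * ((c + 1) * X) * (3 * (c + 1) * X * Real.sqrt M + Real.sqrt off) +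
      3 * Real.sqrt C₁ * X ^ 2 * Real.sqrt M) / M =
      (9 * (c + 1 : ℝ) ^ 2 + 3 * Real.sqrt C₁) * X ^ 2 / Real.sqrt M +
        3 * (c + 1) * X * Real.sqrt off / M := by
    have : M ≠ 0 := hM0.ne'
    have h' : Real.sqrt M ≠ 0 := hsM.ne'
    have e2 : Real.sqrt M / M = 1 / Real.sqrt M := by
      rw [div_eq_div_iff this h', one_mul, hsM2]
    calc _ = (9 * (c + 1 : ℝ) ^ 2 + 3 * Real.sqrt C₁) * X ^ 2 * (Real.sqrt M / M) +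
        3 * (c + 1) * X * Real.sqrt off / M := by ring
      _ = _ := by rw [e2]; ring
  rw [e1]
  refine add_le_add le_rfl ?_
  have e3 : 3 * (c + 1 : ℝ) * X * Real.sqrt off / M ≤ 3 * (c + 1) * X * Real.sqrt off :=
    div_le_self (by positivity) hM
  refine e3.trans ?_
  have e4 : 3 * (c + 1 : ℝ) ≤ 9 * (c + 1 : ℝ) ^ 2 + 3 * Real.sqrt C₁ := by nlinarith
  have e5 : 0 ≤ X * Real.sqrt off := by positivity
  calc 3 * (c + 1 : ℝ) * X * Real.sqrt off = 3 * (c + 1 : ℝ) * (X * Real.sqrt off) := by ring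
    _ ≤ (9 * (c + 1 : ℝ) ^ 2 + 3 * Real.sqrt C₁) * (X * Real.sqrt off) :=
        mul_le_mul_of_nonneg_right e4 e5
    _ = _ := by ring

theorem kat (h : S_TKG) : S_KAT := by
  classical
  intro c hc
  obtain ⟨C₁, hC₁, hTKG⟩ := h c hc
  refine ⟨9 * (c + 1 : ℝ) ^ 2 + 3 * Real.sqrt C₁ + 1, by positivity, ?_⟩
  intro 𝔓 hP hM Λ hΛ
  obtain ⟨X₀, hX₀⟩ := hTKG 𝔓 hP hM Λ hΛ
  refine ⟨max X₀ (max ⌈mass (c : ℤ) 𝔓⌉₊ (∑ π ∈ 𝔓, nn (c : ℤ) π)), ?_⟩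
  intro x hx f₃ hf1 hfm g hg1 hg0
  have hx0 : X₀ ≤ x := le_trans (le_max_left _ _) hx
  have hx1 : ⌈mass (c : ℤ) 𝔓⌉₊ ≤ x := le_trans (le_trans (le_max_left _ _) (le_max_right _ _)) hx
  have hx2 : ∑ π ∈ 𝔓, nn (c : ℤ) π ≤ x :=
    le_trans (le_trans (le_max_right _ _) (le_max_right _ _)) hx
  set M := mass (c : ℤ) 𝔓 with hMdef
  have hMx : M ≤ x := (Nat.le_ceil _).trans (by exact_mod_cast hx1)
  have hxone : 1 ≤ x := by
    have : (1 : ℝ) ≤ x := hM.trans hMx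
    exact_mod_cast this
  have hxP : ∀ π ∈ 𝔓, nn (c : ℤ) π ≤ x := fun π hπ =>
    (single_le_sum (f := fun π => nn (c : ℤ) π) (fun _ _ => Nat.zero_le _) hπ).trans hx2
  set f : ℕ → ℂ := fun n => if n = 0 then 0 else f₃ n with hf
  have key := kat0 c hc C₁ hC₁ 𝔓 hP hM Λ hΛ x hxone hxP (hX₀ x hx0) f
    (by
      intro n
      simp only [hf]
      split_ifs
      · simp
      · exact hf1 n)
    (by
      intro m n
      simp only [hf]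
      by_cases hm : m = 0
      · simp [hm]
      by_cases hn : n = 0
      · simp [hn]
      rw [if_neg hm, if_neg hn, if_neg (Nat.mul_ne_zero hm hn)]
      exact hfm m n (Nat.pos_of_ne_zero hm) (Nat.pos_of_ne_zero hn)) g hg1 hg0
  have hdiff : ‖∑ z ∈ bx Λ x, f₃ (nn (c : ℤ) z) * g z‖ ≤
      ‖∑ z ∈ bx Λ x, f (nn (c : ℤ) z) * g z‖ + 1 := by
    have e1 : ∑ z ∈ bx Λ x, f₃ (nn (c : ℤ) z) * g z =
        ∑ z ∈ bx Λ x, f (nn (c : ℤ) z) * g z + f₃ 0 * g 0 := by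
      have e2 : ∑ z ∈ bx Λ x, (if z = 0 then f₃ 0 * g 0 else 0) = f₃ 0 * g 0 := by
        rw [sum_ite_eq' (bx Λ x) (0 : ℤ × ℤ) (fun _ => f₃ 0 * g 0), if_pos]
        rw [mem_bx, Prod.fst_zero, Prod.snd_zero, abs_zero]
        exact ⟨Int.natCast_nonneg _, Int.natCast_nonneg _⟩
      rw [← e2, ← sum_add_distrib]
      refine sum_congr rfl fun z _ => ?_
      by_cases hz : z = 0
      · subst hz
        simp only [hf, nn_zero, if_true, zero_mul, zero_add]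
      · have : nn (c : ℤ) z ≠ 0 := fun h => hz (eq_zero_of_nn hc h)
        simp only [hf, if_neg this, if_neg hz, add_zero]
    rw [e1]
    refine (norm_add_le _ _).trans (add_le_add le_rfl ?_)
    rw [norm_mul]
    exact mul_le_one₀ (hf1 _) (norm_nonneg _) (hg1 _)
  refine hdiff.trans ?_
  set off := ∑ π ∈ 𝔓, ∑ π' ∈ 𝔓.erase π,
        ‖∑ w ∈ bx (Λ * (c + 1)) x, g (pm (c : ℤ) π w) * conj (g (pm (c : ℤ) π' w))‖ with hoff
  set A : ℝ := 9 * (c + 1 : ℝ) ^ 2 + 3 * Real.sqrt C₁ with hA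
  set X : ℝ := (Λ * x : ℝ) with hX
  have hxr : (1 : ℝ) ≤ x := by exact_mod_cast hxone
  have hΛr : (1 : ℝ) ≤ Λ := by exact_mod_cast hΛ
  have hXx : (x : ℝ) ≤ X := by rw [hX]; nlinarith
  have hX0 : 0 ≤ X := by linarith
  have hM0 : 0 < M := lt_of_lt_of_le one_pos hM
  have hsM : 0 < Real.sqrt M := Real.sqrt_pos.mpr hM0
  have hone : 1 ≤ X ^ 2 / Real.sqrt M := by
    rw [le_div_iff₀ hsM, one_mul]
    calc Real.sqrt M ≤ M := by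
          rw [Real.sqrt_le_left hM0.le]
          nlinarith
      _ ≤ x := hMx
      _ ≤ X := hXx
      _ ≤ X ^ 2 := by nlinarith
  have e1 : (A + 1) * X ^ 2 / Real.sqrt M = A * X ^ 2 / Real.sqrt M + X ^ 2 / Real.sqrt M := by
    ring
  have e2 : 0 ≤ X * Real.sqrt off := mul_nonneg hX0 (Real.sqrt_nonneg _)
  have e3 : (A + 1) * X * Real.sqrt off = A * X * Real.sqrt off + X * Real.sqrt off := by ring
  rw [e1, e3]
  linarith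

end Pool.Agent.N263.PY.Kat
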